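import Mathlib

open Filter Topology Matrix

namespace Pool.Agent.Results.MP_b5bb8b_co.Unbounded

/-! ### The nonbacktracking matrix, Jordan blocks, and the function `f` -/

open Classical in
/-- The nonbacktracking matrix of a graph, indexed by its directed edges (darts). -/
noncomputable def nbMatrix {V : Type*} (G : SimpleGraph V) : Matrix G.Dart G.Dart ℂ :=
  fun d e => if d.snd = e.fst ∧ d.fst ≠ e.snd then 1 else 0

/-- The Jordan normal form of `M` has a block of size exactly `s` for the eigenvalue `μ`: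
the number of such blocks is `rank N^(s-1) - 2 rank N^s + rank N^(s+1)` for `N = M - μ`. -/
def IsJordanBlockSize {D : Type*} [Fintype D] [DecidableEq D] (M : Matrix D D ℂ) (μ : ℂ)
    (s : ℕ) : Prop :=
  1 ≤ s ∧ 2 * ((M - Matrix.scalar D μ) ^ s).rank <
    ((M - Matrix.scalar D μ) ^ (s - 1)).rank + ((M - Matrix.scalar D μ) ^ (s + 1)).rank

/-- No vertex has exactly one neighbour. -/
def NoLeaves {V : Type*} (G : SimpleGraph V) : Prop := ∀ v, (G.neighborSet v).ncard ≠ 1

open Classical in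
/-- The sizes of Jordan blocks of nonbacktracking matrices of graphs on `n` vertices without
leaves and with at least one edge. -/
def blockSizes (n : ℕ) : Set ℕ :=
  {s | ∃ G : SimpleGraph (Fin n), NoLeaves G ∧ (∃ u v, G.Adj u v) ∧
    ∃ μ : ℂ, IsJordanBlockSize (nbMatrix G) μ s}

/-- `f n` is the largest size of such a Jordan block. -/
noncomputable def f (n : ℕ) : ℕ := sSup (blockSizes n)

/-! ### Arithmetic part -/


/-- the power series `X - 1/3` -/
noncomputable def z : PowerSeries ℚ := ((Polynomial.X + Polynomial.C (-1/3) : Polynomial ℚ) : PowerSeries ℚ)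

lemma coeff_z_pow (a d : ℕ) :
    PowerSeries.coeff d (z ^ a) = (-1/3 : ℚ) ^ (a - d) * (a.choose d : ℚ) := by
  unfold z
  rw [← Polynomial.coe_pow, Polynomial.coeff_coe, Polynomial.coeff_X_add_C_pow]

lemma constCoeff_z_pow (a : ℕ) : PowerSeries.constantCoeff (z ^ a) = (-1/3 : ℚ) ^ a := by
  rw [← PowerSeries.coeff_zero_eq_constantCoeff_apply, coeff_z_pow]
  simp

lemma one_add_ne (a : ℕ) : PowerSeries.constantCoeff (1 + z ^ a) ≠ 0 := by
  rw [map_add, constCoeff_z_pow, map_one]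
  rcases Nat.eq_zero_or_pos a with h | h
  · subst h; norm_num
  · have h1 : |(-1/3 : ℚ) ^ a| < 1 := by
      rw [abs_pow]
      exact pow_lt_one₀ (abs_nonneg _) (by norm_num [abs_lt]) (by omega)
    have := abs_lt.mp h1
    linarith [this.1]

lemma tendsto_z_pow :
    letI := PowerSeries.WithPiTopology.instTopologicalSpace ℚ
    Tendsto (fun a : ℕ => z ^ a) atTop (𝓝 (0 : PowerSeries ℚ)) := by
  rw [PowerSeries.WithPiTopology.tendsto_iff_coeff_tendsto]
  intro d
  rw [map_zero]
  rw [Rat.isEmbedding_coe_real.tendsto_nhds_iff]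
  have h0 : Tendsto (fun a : ℕ => (3:ℝ)^d * ((a:ℝ) ^ d * (1/3 : ℝ) ^ a)) atTop (𝓝 0) := by
    have := (tendsto_pow_const_mul_const_pow_of_abs_lt_one d (r := (1/3:ℝ)) (by norm_num [abs_lt])).const_mul ((3:ℝ)^d)
    simpa using this
  rw [Rat.cast_zero]
  refine squeeze_zero_norm' ?_ h0
  filter_upwards [eventually_ge_atTop d] with a ha
  simp only [Function.comp]
  rw [coeff_z_pow]
  push_cast
  rw [norm_mul, norm_pow]
  have h1 : ‖(-1/3 : ℝ)‖ = 1/3 := by norm_num
  rw [h1]
  have h2 : ‖((a.choose d : ℕ) : ℝ)‖ ≤ (a:ℝ)^d := by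
    rw [Real.norm_of_nonneg (by positivity)]
    exact_mod_cast Nat.choose_le_pow a d
  have h3 : (1/3 : ℝ) ^ (a - d) = (3:ℝ)^d * (1/3)^a := by
    have : (1/3 : ℝ)^a = (1/3)^(a-d) * (1/3)^d := by
      rw [← pow_add]; congr 1; omega
    rw [this]
    have : (3:ℝ)^d * (1/3)^d = 1 := by
      rw [← mul_pow]; norm_num
    calc (1/3 : ℝ) ^ (a - d) = (1/3 : ℝ) ^ (a - d) * ((3:ℝ)^d * (1/3)^d) := by rw [this, mul_one]
      _ = _ := by ring
  rw [h3]
  calc (3:ℝ)^d * (1/3)^a * ‖((a.choose d : ℕ) : ℝ)‖ ≤ (3:ℝ)^d * (1/3)^a * (a:ℝ)^d := by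
        gcongr
    _ = _ := by ring

/-- the `i`-th product `z^i ∏_{j ≠ i, j ≤ k} (1 + z^(a+j))` -/
noncomputable def F (k a i : ℕ) : PowerSeries ℚ :=
  z ^ i * ∏ j ∈ (Finset.range (k+1)).erase i, (1 + z ^ (a + j))

lemma tendsto_F (k i : ℕ) :
    letI := PowerSeries.WithPiTopology.instTopologicalSpace ℚ
    Tendsto (fun a : ℕ => F k a i) atTop (𝓝 (z ^ i)) := by
  let _ := PowerSeries.WithPiTopology.instTopologicalSpace ℚ
  have := PowerSeries.WithPiTopology.instIsTopologicalRing ℚ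
  show Tendsto (fun a : ℕ => F k a i) atTop (𝓝 (z ^ i))
  have h0 : Tendsto (fun a : ℕ => z ^ a) atTop (𝓝 (0 : PowerSeries ℚ)) := tendsto_z_pow
  have h1 : Tendsto (fun a : ℕ => ∏ j ∈ (Finset.range (k+1)).erase i, (1 + z ^ (a + j))) atTop
      (𝓝 (∏ j ∈ (Finset.range (k+1)).erase i, (1 : PowerSeries ℚ))) := by
    apply tendsto_finsetProd
    intro j _
    have h2 : Tendsto (fun a : ℕ => (1 : PowerSeries ℚ) + z ^ a * z ^ j) atTop (𝓝 (1 + 0 * z ^ j)) :=
      tendsto_const_nhds.add (h0.mul tendsto_const_nhds)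
    simpa [pow_add] using h2
  have h3 := (tendsto_const_nhds (x := z ^ i)).mul h1
  simpa [F] using h3

/-- coefficient matrix -/
noncomputable def M (k a : ℕ) : Matrix (Fin k) (Fin k) ℚ :=
  fun j i => PowerSeries.coeff (j : ℕ) (F k a i)

noncomputable def Minf (k : ℕ) : Matrix (Fin k) (Fin k) ℚ :=
  fun j i => PowerSeries.coeff (j : ℕ) (z ^ (i : ℕ))

noncomputable def vv (k a : ℕ) : Fin k → ℚ := fun j => PowerSeries.coeff (j : ℕ) (F k a k)

noncomputable def vinf (k : ℕ) : Fin k → ℚ := fun j => PowerSeries.coeff (j : ℕ) (z ^ k)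

noncomputable def cinf (k : ℕ) : Fin k → ℚ := fun i => (k.choose i : ℚ) * 3 ^ (i : ℕ) / 3 ^ k

lemma tendsto_coeff_F (k i d : ℕ) :
    Tendsto (fun a : ℕ => PowerSeries.coeff d (F k a i)) atTop (𝓝 (PowerSeries.coeff d (z ^ i))) := by
  have := tendsto_F k i
  rw [PowerSeries.WithPiTopology.tendsto_iff_coeff_tendsto] at this
  exact this d

lemma tendsto_M (k : ℕ) : Tendsto (M k) atTop (𝓝 (Minf k)) := by
  refine tendsto_pi_nhds.mpr ?_
  intro j
  refine tendsto_pi_nhds.mpr ?_
  intro i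
  exact tendsto_coeff_F k i j

lemma tendsto_vv (k : ℕ) : Tendsto (vv k) atTop (𝓝 (vinf k)) := by
  rw [tendsto_pi_nhds]
  intro j
  exact tendsto_coeff_F k k j

lemma det_Minf (k : ℕ) : (Minf k).det = 1 := by
  have hT : (Minf k).BlockTriangular id := by
    intro i j hij
    simp only [Minf, coeff_z_pow]
    have : Nat.choose (j : ℕ) (i : ℕ) = 0 := Nat.choose_eq_zero_of_lt hij
    rw [this]; simp
  rw [Matrix.det_of_isUpperTriangular hT]
  apply Finset.prod_eq_one
  intro i _
  simp [Minf, coeff_z_pow]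

lemma Minf_mulVec (k : ℕ) : (Minf k).mulVec (cinf k) = - vinf k := by
  have h : (1 + 3 * z) ^ k = (3 : PowerSeries ℚ) ^ k * PowerSeries.X ^ k := by
    have : (1 : PowerSeries ℚ) + 3 * z = 3 * PowerSeries.X := by
      unfold z
      rw [Polynomial.coe_add, Polynomial.coe_X, Polynomial.coe_C]
      have h3 : (3 : PowerSeries ℚ) * PowerSeries.C (-1/3 : ℚ) = -1 := by
        have : (3 : PowerSeries ℚ) = PowerSeries.C (3 : ℚ) := (map_ofNat _ 3).symm
        rw [this, ← map_mul]; norm_num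
      rw [mul_add, h3]; ring
    rw [this, mul_pow]
  have h' : (1 + 3 * z) ^ k = ∑ i ∈ Finset.range (k+1), PowerSeries.C ((k.choose i : ℚ) * 3 ^ i) * z ^ i := by
    rw [add_comm, add_pow]
    apply Finset.sum_congr rfl
    intro i _
    rw [mul_pow, one_pow, mul_one, map_mul, map_pow]
    simp only [map_natCast]
    have : PowerSeries.C (3 : ℚ) = (3 : PowerSeries ℚ) := map_ofNat _ 3
    rw [this]
    ring
  funext j
  have hj : PowerSeries.coeff (j : ℕ) ((1 + 3 * z) ^ k) = 0 := by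
    rw [h, mul_comm]
    rw [PowerSeries.coeff_X_pow_mul']
    simp [j.2]
  rw [h', map_sum, Finset.sum_range_succ] at hj
  simp only [PowerSeries.coeff_C_mul] at hj
  simp only [Matrix.mulVec, dotProduct, Minf, cinf, vinf, Pi.neg_apply]
  rw [Nat.choose_self, Nat.cast_one, one_mul] at hj
  have h3 : (3 : ℚ)^k ≠ 0 := by positivity
  rw [← Fin.sum_univ_eq_sum_range (fun i => (k.choose i : ℚ) * 3 ^ i * PowerSeries.coeff (j:ℕ) (z ^ i))] at hj
  have : ∑ x : Fin k, PowerSeries.coeff (j:ℕ) (z ^ (x:ℕ)) * ((k.choose x : ℚ) * 3 ^ (x:ℕ) / 3 ^ k)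
      = (∑ i : Fin k, (k.choose i : ℚ) * 3 ^ (i:ℕ) * PowerSeries.coeff (j:ℕ) (z ^ (i:ℕ))) / 3 ^ k := by
    rw [Finset.sum_div]
    apply Finset.sum_congr rfl
    intro x _
    ring
  rw [this]
  field_simp
  linarith

lemma cramer_inf (k : ℕ) : (Minf k).cramer (- vinf k) = cinf k := by
  rw [← Minf_mulVec, Matrix.cramer_eq_adjugate_mulVec, Matrix.mulVec_mulVec, Matrix.adjugate_mul,
    det_Minf]
  simp

lemma cramer_tendsto {k : ℕ} {A : ℕ → Matrix (Fin k) (Fin k) ℚ} {b : ℕ → Fin k → ℚ}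
    {A0 : Matrix (Fin k) (Fin k) ℚ} {b0 : Fin k → ℚ} (hA : Tendsto A atTop (𝓝 A0))
    (hb : Tendsto b atTop (𝓝 b0)) (i : Fin k) :
    Tendsto (fun a => (A a).cramer (b a) i) atTop (𝓝 (A0.cramer b0 i)) := by
  simp only [Matrix.cramer_apply]
  have hc : Continuous (fun p : Matrix (Fin k) (Fin k) ℚ × (Fin k → ℚ) =>
      (p.1.updateCol i p.2).det) := by
    apply Continuous.matrix_det
    exact continuous_fst.matrix_updateCol i continuous_snd
  have h1 : Tendsto (fun a => ((A a), (b a))) atTop (𝓝 (A0, b0)) :=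
    hA.prodMk_nhds hb
  have h2 := (hc.tendsto (A0, b0))
  have h3 := h2.comp h1
  simpa only [Function.comp_def] using h3

lemma tendsto_cramer (k : ℕ) (i : Fin k) :
    Tendsto (fun a => (M k a).cramer (- vv k a) i) atTop (𝓝 (cinf k i)) := by
  have h := cramer_tendsto (tendsto_M k) (tendsto_vv k).neg i
  rw [cramer_inf] at h
  exact h

lemma tendsto_det (k : ℕ) : Tendsto (fun a => (M k a).det) atTop (𝓝 1) := by
  rw [← det_Minf k]
  have hc : Continuous (fun p : Matrix (Fin k) (Fin k) ℚ => p.det) :=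
    Continuous.matrix_det continuous_id
  exact (hc.tendsto (Minf k)).comp (tendsto_M k)

lemma cinf_pos (k : ℕ) (i : Fin k) : 0 < cinf k i := by
  unfold cinf
  have : 0 < k.choose i := Nat.choose_pos i.2.le
  positivity

/-- for all large `a`, all Cramer coefficients are positive -/
lemma eventually_pos (k : ℕ) :
    ∀ᶠ a in atTop, (0 < (M k a).det) ∧ ∀ i, 0 < (M k a).cramer (- vv k a) i := by
  have h1 : ∀ᶠ a in atTop, 0 < (M k a).det :=
    (tendsto_det k).eventually (lt_mem_nhds (by norm_num))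
  have h2 : ∀ i, ∀ᶠ a in atTop, 0 < (M k a).cramer (- vv k a) i := by
    intro i
    exact (tendsto_cramer k i).eventually (lt_mem_nhds (cinf_pos k i))
  have h3 := eventually_all.mpr h2
  filter_upwards [h1, h3] with a ha hb
  exact ⟨ha, hb⟩


/-- `y_l = 2 z^l / (1 + z^l)` -/
noncomputable def y (l : ℕ) : PowerSeries ℚ := 2 * z ^ l * (1 + z ^ l)⁻¹

lemma y_mul (l : ℕ) : y l * (1 + z ^ l) = 2 * z ^ l := by
  unfold y
  rw [mul_assoc, PowerSeries.inv_mul_cancel _ (one_add_ne l), mul_one]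

noncomputable def U (k a : ℕ) : PowerSeries ℚ := ∏ j ∈ Finset.range (k+1), (1 + z ^ (a + j))

lemma y_U {k a i : ℕ} (hi : i ≤ k) : y (a + i) * U k a = 2 * z ^ a * F k a i := by
  unfold U F
  rw [← Finset.mul_prod_erase _ _ (Finset.mem_range.mpr (Nat.lt_succ_of_le hi)), ← mul_assoc, y_mul]
  rw [pow_add]; ring

lemma isUnit_U (k a : ℕ) : IsUnit (U k a) := by
  unfold U
  rw [IsUnit.prod_iff]
  intro j _
  rw [PowerSeries.isUnit_iff_constantCoeff]
  exact isUnit_iff_ne_zero.mpr (one_add_ne _)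

lemma isUnit_z : IsUnit z := by
  rw [PowerSeries.isUnit_iff_constantCoeff]
  have := constCoeff_z_pow 1
  rw [pow_one, pow_one] at this
  rw [this]
  exact isUnit_iff_ne_zero.mpr (by norm_num)

lemma isUnit_two : IsUnit (2 : PowerSeries ℚ) := by
  rw [PowerSeries.isUnit_iff_constantCoeff]
  have : PowerSeries.constantCoeff (2 : PowerSeries ℚ) = 2 := map_ofNat _ 2
  rw [this]
  exact isUnit_iff_ne_zero.mpr (by norm_num)

/-- given target `b`, any power series is modulo `X^k` a rational combination of the `y (a+i)` -/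
lemma exists_comb {k a : ℕ} (hdet : (M k a).det ≠ 0) (φ : PowerSeries ℚ) :
    ∃ d : Fin k → ℚ, PowerSeries.X ^ k ∣ φ - ∑ i : Fin k, PowerSeries.C (d i) * y (a + i) := by
  obtain ⟨u, hu⟩ := isUnit_U k a
  obtain ⟨w, hw⟩ := (isUnit_two.mul (isUnit_z.pow a))
  -- target
  set ψ : PowerSeries ℚ := φ * U k a * ((w⁻¹ : (PowerSeries ℚ)ˣ) : PowerSeries ℚ) with hψ
  set b : Fin k → ℚ := fun j => PowerSeries.coeff (j : ℕ) ψ with hb
  refine ⟨fun i => (M k a).det⁻¹ * (M k a).cramer b i, ?_⟩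
  have key : (M k a).mulVec (fun i => (M k a).det⁻¹ * (M k a).cramer b i) = b := by
    have h1 : (fun i => (M k a).det⁻¹ * (M k a).cramer b i) = (M k a).det⁻¹ • (M k a).cramer b := by
      funext i; simp
    rw [h1, Matrix.mulVec_smul, Matrix.mulVec_cramer, smul_smul, inv_mul_cancel₀ hdet, one_smul]
  have h2 : PowerSeries.X ^ k ∣ ψ - ∑ i : Fin k,
      PowerSeries.C ((M k a).det⁻¹ * (M k a).cramer b i) * F k a i := by
    rw [PowerSeries.X_pow_dvd_iff]
    intro m hm
    have h3 := congrFun key ⟨m, hm⟩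
    simp only [Matrix.mulVec, dotProduct, M, hb] at h3
    rw [map_sub, map_sum]
    simp only [PowerSeries.coeff_C_mul]
    rw [← h3, sub_eq_zero]
    apply Finset.sum_congr rfl
    intro i _
    ring
  have h4 : (φ - ∑ i : Fin k, PowerSeries.C ((M k a).det⁻¹ * (M k a).cramer b i) * y (a + i)) * U k a
      = (ψ - ∑ i : Fin k, PowerSeries.C ((M k a).det⁻¹ * (M k a).cramer b i) * F k a i)
        * (2 * z ^ a) := by
    rw [sub_mul, sub_mul, Finset.sum_mul, Finset.sum_mul]
    congr 1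
    · rw [hψ, ← hw, mul_assoc, Units.inv_mul, mul_one]
    · apply Finset.sum_congr rfl
      intro i _
      rw [mul_assoc, y_U (i.2.le)]
      ring
  have h5 : PowerSeries.X ^ k ∣ (φ - ∑ i : Fin k, PowerSeries.C ((M k a).det⁻¹ * (M k a).cramer b i) * y (a + i)) * U k a := by
    rw [h4]
    exact Dvd.dvd.mul_right h2 _
  rw [← hu] at h5
  exact (Units.dvd_mul_right).mp h5

/-- positive relation -/
lemma exists_pos_rel (k a : ℕ) :
    PowerSeries.X ^ k ∣ (∑ i : Fin k, PowerSeries.C ((M k a).cramer (- vv k a) i) * y (a + i))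
      + PowerSeries.C ((M k a).det) * y (a + k) := by
  obtain ⟨u, hu⟩ := isUnit_U k a
  have h2 : PowerSeries.X ^ k ∣ (∑ i : Fin k, PowerSeries.C ((M k a).cramer (- vv k a) i) * F k a i)
      + PowerSeries.C ((M k a).det) * F k a k := by
    rw [PowerSeries.X_pow_dvd_iff]
    intro m hm
    have h3 := congrFun (Matrix.mulVec_cramer (M k a) (- vv k a)) ⟨m, hm⟩
    simp only [Matrix.mulVec, dotProduct, vv, Pi.smul_apply, Pi.neg_apply, smul_eq_mul] at h3
    rw [map_add, map_sum]
    simp only [PowerSeries.coeff_C_mul]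
    have h6 : ∑ x : Fin k, (M k a).cramer (- vv k a) x * PowerSeries.coeff m (F k a x)
        = (M k a).det * -(PowerSeries.coeff m (F k a k)) := by
      rw [← h3]
      apply Finset.sum_congr rfl
      intro i _
      rw [mul_comm]; rfl
    rw [h6]; ring
  have h4 : ((∑ i : Fin k, PowerSeries.C ((M k a).cramer (- vv k a) i) * y (a + i))
      + PowerSeries.C ((M k a).det) * y (a + k)) * U k a
      = ((∑ i : Fin k, PowerSeries.C ((M k a).cramer (- vv k a) i) * F k a i)
      + PowerSeries.C ((M k a).det) * F k a k) * (2 * z ^ a) := by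
    rw [add_mul, add_mul, Finset.sum_mul, Finset.sum_mul]
    congr 1
    · apply Finset.sum_congr rfl
      intro i _
      rw [mul_assoc, y_U (i.2.le)]
      ring
    · rw [mul_assoc, y_U le_rfl]; ring
  have h5 : PowerSeries.X ^ k ∣ ((∑ i : Fin k, PowerSeries.C ((M k a).cramer (- vv k a) i) * y (a + i))
      + PowerSeries.C ((M k a).det) * y (a + k)) * U k a := by
    rw [h4]
    exact Dvd.dvd.mul_right h2 _
  rw [← hu] at h5
  exact (Units.dvd_mul_right).mp h5

lemma exists_common {ι : Type*} [Fintype ι] (q : ι → ℚ) :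
    ∃ N : ℕ, 0 < N ∧ ∀ i, ∃ n : ℤ, (N : ℚ) * q i = n := by
  classical
  refine ⟨∏ i, (q i).den, Finset.prod_pos (fun i _ => (q i).pos), ?_⟩
  intro i
  refine ⟨(∏ j ∈ Finset.univ.erase i, ((q j).den : ℤ)) * (q i).num, ?_⟩
  rw [← Finset.mul_prod_erase _ _ (Finset.mem_univ i)]
  push_cast
  have h := Rat.mul_den_eq_num (q i)
  calc ((q i).den : ℚ) * (∏ j ∈ Finset.univ.erase i, ((q j).den : ℚ)) * q i
      = (∏ j ∈ Finset.univ.erase i, ((q j).den : ℚ)) * (q i * (q i).den) := by ring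
    _ = _ := by rw [h]

/-- the monoid generated by the `y l`, `l ≥ a`, and the multiples of `X^k` -/
noncomputable def SM (k a : ℕ) : AddSubmonoid (PowerSeries ℚ) :=
  AddSubmonoid.closure ({p | ∃ l, a ≤ l ∧ p = y l} ∪ {p | PowerSeries.X ^ k ∣ p})

lemma y_mem {k a l : ℕ} (h : a ≤ l) : y l ∈ SM k a :=
  AddSubmonoid.subset_closure (Or.inl ⟨l, h, rfl⟩)

lemma dvd_mem {k a : ℕ} {p : PowerSeries ℚ} (h : PowerSeries.X ^ k ∣ p) : p ∈ SM k a :=
  AddSubmonoid.subset_closure (Or.inr h)

lemma neg_y_mem {k a l : ℕ} (hk : 0 < k) (h : a ≤ l)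
    (hpos : (0 < (M k l).det) ∧ ∀ i, 0 < (M k l).cramer (- vv k l) i) : - y l ∈ SM k a := by
  -- family of coefficients indexed by Option (Fin k)
  obtain ⟨N, hN, hn⟩ := exists_common (fun i : Option (Fin k) =>
    match i with
    | none => (M k l).det
    | some i => (M k l).cramer (- vv k l) i)
  choose n hn using hn
  have hn0 : ∀ i, 0 < n i := by
    intro i
    have h1 := hn i
    have hNq : (0:ℚ) < N := by exact_mod_cast hN
    have h2 : (0:ℚ) < n i := by
      rw [← h1]
      cases i with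
      | none => exact mul_pos hNq hpos.1
      | some i => exact mul_pos hNq (hpos.2 i)
    exact_mod_cast h2
  -- convert to naturals
  obtain ⟨m, hm⟩ : ∃ m : Option (Fin k) → ℕ, ∀ i, (m i : ℤ) = n i :=
    ⟨fun i => (n i).toNat, fun i => Int.toNat_of_nonneg (hn0 i).le⟩
  have hrel := exists_pos_rel k l
  have hrel2 : PowerSeries.X ^ k ∣ (∑ i : Fin k, (m (some i)) • y (l + i)) + (m none) • y (l + k) := by
    have h3 := Dvd.dvd.mul_left hrel (PowerSeries.C (N : ℚ))
    have h4 : PowerSeries.C (N : ℚ) * ((∑ i : Fin k, PowerSeries.C ((M k l).cramer (- vv k l) i) * y (l + i))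
      + PowerSeries.C ((M k l).det) * y (l + k)) = (∑ i : Fin k, (m (some i)) • y (l + i)) + (m none) • y (l + k) := by
      rw [mul_add, Finset.mul_sum]
      congr 1
      · apply Finset.sum_congr rfl
        intro i _
        have h5 := hn (some i)
        simp only at h5
        rw [← mul_assoc, ← map_mul, h5, ← hm]
        rw [nsmul_eq_mul]
        simp
      · have h5 := hn none
        simp only at h5
        rw [← mul_assoc, ← map_mul, h5, ← hm]
        rw [nsmul_eq_mul]
        simp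
    rwa [h4] at h3
  -- isolate one copy of y l
  set i0 : Fin k := ⟨0, hk⟩ with hi0
  have hm0 : 0 < m (some i0) := by
    have := hn0 (some i0); rw [← hm] at this; exact_mod_cast this
  obtain ⟨m', hm'⟩ : ∃ m', m (some i0) = m' + 1 := ⟨m (some i0) - 1, by omega⟩
  set p := (∑ i : Fin k, (m (some i)) • y (l + i)) + (m none) • y (l + k) with hp
  have hsplit : - y l = (m' • y l + ∑ i ∈ Finset.univ.erase i0, (m (some i)) • y (l + i))
      + (m none) • y (l + k) + (-p) := by
    rw [hp, ← Finset.add_sum_erase _ _ (Finset.mem_univ i0), hm', succ_nsmul]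
    simp only [hi0, add_zero]
    abel
  rw [hsplit]
  refine add_mem (add_mem (add_mem ?_ ?_) ?_) ?_
  · exact nsmul_mem (y_mem h) _
  · apply sum_mem
    intro i _
    exact nsmul_mem (y_mem (by omega)) _
  · exact nsmul_mem (y_mem (by omega)) _
  · exact dvd_mem ((dvd_neg).mpr hrel2)

lemma neg_mem_SM {k a : ℕ} (hneg : ∀ l, a ≤ l → - y l ∈ SM k a) {p : PowerSeries ℚ} (hp : p ∈ SM k a) :
    - p ∈ SM k a := by
  unfold SM at hp
  induction hp using AddSubmonoid.closure_induction with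
  | mem x hx =>
    rcases hx with ⟨l, hl, rfl⟩ | hx
    · exact hneg l hl
    · exact dvd_mem ((dvd_neg).mpr hx)
  | zero => simp
  | add x y _ _ hx hy =>
    rw [neg_add]
    exact add_mem hx hy

lemma zsmul_mem_SM {k a : ℕ} (hneg : ∀ l, a ≤ l → - y l ∈ SM k a) {p : PowerSeries ℚ} (hp : p ∈ SM k a)
    (n : ℤ) : n • p ∈ SM k a := by
  obtain ⟨m, rfl | rfl⟩ := n.eq_nat_or_neg
  · rw [natCast_zsmul]; exact nsmul_mem hp m
  · rw [neg_zsmul, natCast_zsmul]; exact neg_mem_SM hneg (nsmul_mem hp m)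

/-- every series has a positive integer multiple in `SM` -/
lemma exists_mul_mem {k a : ℕ} (hneg : ∀ l, a ≤ l → - y l ∈ SM k a) (hdet : (M k a).det ≠ 0)
    (φ : PowerSeries ℚ) : ∃ N : ℕ, 0 < N ∧ N • φ ∈ SM k a := by
  obtain ⟨d, hd⟩ := exists_comb hdet φ
  obtain ⟨N, hN, hn⟩ := exists_common d
  choose n hn using hn
  refine ⟨N, hN, ?_⟩
  have h1 : N • φ = (∑ i : Fin k, n i • y (a + i)) + N • (φ - ∑ i : Fin k, PowerSeries.C (d i) * y (a + i)) := by
    rw [nsmul_sub, Finset.smul_sum]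
    have : ∀ i : Fin k, N • (PowerSeries.C (d i) * y (a + i)) = n i • y (a + i) := by
      intro i
      rw [nsmul_eq_mul, zsmul_eq_mul, ← mul_assoc]
      congr 1
      have h2 : ((N : PowerSeries ℚ)) = PowerSeries.C (N : ℚ) := by simp
      rw [h2, ← map_mul, hn i]
      simp
    simp only [this]
    abel
  rw [h1]
  refine add_mem ?_ ?_
  · apply sum_mem
    intro i _
    exact zsmul_mem_SM hneg (y_mem (by omega)) _
  · apply nsmul_mem
    exact dvd_mem hd

/-- integral below degree `k` -/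
def Lint (k : ℕ) (φ : PowerSeries ℚ) : Prop := ∀ j < k, ∃ n : ℤ, PowerSeries.coeff j φ = n

lemma exists_N {k a : ℕ} (hneg : ∀ l, a ≤ l → - y l ∈ SM k a) (hdet : (M k a).det ≠ 0) :
    ∃ N : ℕ, 0 < N ∧ ∀ φ, Lint k φ → N • φ ∈ SM k a := by
  have h1 : ∀ j : Fin k, ∃ N : ℕ, 0 < N ∧ N • (PowerSeries.X ^ (j:ℕ) : PowerSeries ℚ) ∈ SM k a :=
    fun j => exists_mul_mem hneg hdet _
  choose N hN hNm using h1
  refine ⟨∏ j, N j, Finset.prod_pos (fun j _ => hN j), ?_⟩
  intro φ hφ
  have h2 : ∀ j : Fin k, ∃ n : ℤ, PowerSeries.coeff (j:ℕ) φ = n := fun j => hφ j j.2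
  choose n hn using h2
  have h3 : PowerSeries.X ^ k ∣ φ - ∑ j : Fin k, n j • (PowerSeries.X ^ (j:ℕ) : PowerSeries ℚ) := by
    rw [PowerSeries.X_pow_dvd_iff]
    intro m hm
    rw [map_sub, map_sum]
    have h4 : ∀ j : Fin k, PowerSeries.coeff m (n j • (PowerSeries.X ^ (j:ℕ) : PowerSeries ℚ)) =
        if (⟨m, hm⟩ : Fin k) = j then (n j : ℚ) else 0 := by
      intro j
      rw [map_zsmul, PowerSeries.coeff_X_pow]
      by_cases h : m = (j:ℕ)
      · rw [if_pos h, if_pos (Fin.ext h)]; simp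
      · rw [if_neg h, if_neg (fun h' => h (congrArg Fin.val h'))]; simp
    simp only [h4, Finset.sum_ite_eq, Finset.mem_univ, if_true]
    rw [hn ⟨m, hm⟩]; simp
  have h5 : (∏ j, N j) • φ = (∑ j : Fin k, n j • ((∏ j, N j) • (PowerSeries.X ^ (j:ℕ) : PowerSeries ℚ)))
      + (∏ j, N j) • (φ - ∑ j : Fin k, n j • (PowerSeries.X ^ (j:ℕ) : PowerSeries ℚ)) := by
    rw [nsmul_sub, Finset.smul_sum]
    have : ∀ j : Fin k, (∏ j, N j) • n j • (PowerSeries.X ^ (j:ℕ) : PowerSeries ℚ) =
        n j • (∏ j, N j) • (PowerSeries.X ^ (j:ℕ) : PowerSeries ℚ) := fun j => smul_comm _ _ _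
    simp only [this]
    abel
  rw [h5]
  refine add_mem (sum_mem ?_) (nsmul_mem (dvd_mem h3) _)
  intro j _
  apply zsmul_mem_SM hneg
  obtain ⟨c, hc⟩ := Finset.dvd_prod_of_mem N (Finset.mem_univ j)
  rw [hc, mul_comm, mul_smul]
  exact nsmul_mem (hNm j) _


lemma Lint_iff {k : ℕ} {φ : PowerSeries ℚ} :
    Lint k φ ↔ ∀ j < k, PowerSeries.coeff j φ ∈ (Int.castRingHom ℚ).range := by
  constructor
  · intro h j hj
    obtain ⟨n, hn⟩ := h j hj
    exact ⟨n, by rw [hn]; rfl⟩
  · intro h j hj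
    obtain ⟨n, hn⟩ := h j hj
    exact ⟨n, by rw [← hn]; rfl⟩

lemma Lint.mul {k : ℕ} {φ ψ : PowerSeries ℚ} (hφ : Lint k φ) (hψ : Lint k ψ) : Lint k (φ * ψ) := by
  rw [Lint_iff] at *
  intro j hj
  rw [PowerSeries.coeff_mul]
  apply sum_mem
  intro p hp
  have hp' : p.1 + p.2 = j := by simpa using hp
  exact mul_mem (hφ _ (by omega)) (hψ _ (by omega))

lemma Lint.add {k : ℕ} {φ ψ : PowerSeries ℚ} (hφ : Lint k φ) (hψ : Lint k ψ) : Lint k (φ + ψ) := by
  rw [Lint_iff] at *
  intro j hj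
  rw [map_add]
  exact add_mem (hφ _ hj) (hψ _ hj)

lemma Lint.sub {k : ℕ} {φ ψ : PowerSeries ℚ} (hφ : Lint k φ) (hψ : Lint k ψ) : Lint k (φ - ψ) := by
  rw [Lint_iff] at *
  intro j hj
  rw [map_sub]
  exact sub_mem (hφ _ hj) (hψ _ hj)

lemma Lint_intCast (k : ℕ) (n : ℤ) : Lint k (n : PowerSeries ℚ) := by
  rw [Lint_iff]
  intro j _
  have : (n : PowerSeries ℚ) = PowerSeries.C (n : ℚ) := by simp
  rw [this, PowerSeries.coeff_C]
  split_ifs
  · exact ⟨n, rfl⟩
  · exact zero_mem _

lemma Lint.pow {k : ℕ} {φ : PowerSeries ℚ} (hφ : Lint k φ) (n : ℕ) : Lint k (φ ^ n) := by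
  induction n with
  | zero => rw [pow_zero]; simpa using Lint_intCast k 1
  | succ n ih => rw [pow_succ]; exact ih.mul hφ

lemma Lint.sum {k : ℕ} {ι : Type*} (s : Finset ι) {f : ι → PowerSeries ℚ} (h : ∀ i ∈ s, Lint k (f i)) :
    Lint k (∑ i ∈ s, f i) := by
  rw [Lint_iff]
  intro j hj
  rw [map_sum]
  apply sum_mem
  intro i hi
  exact (Lint_iff.mp (h i hi)) j hj

/-- choice of the exponent `h` -/
lemma exists_h (k a N : ℕ) (hN : 0 < N) : ∃ h : ℕ, a ≤ h ∧ Even h ∧ 0 < h ∧
    (∃ q : ℤ, (3:ℤ)^h * (3^h - 1) = 2 * N * q) ∧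
    ∀ j, 1 ≤ j → j ≤ k → ∃ r : ℕ, h.choose j = 2 * N * r := by
  obtain ⟨e, m, hm3, hm⟩ := Nat.exists_eq_pow_mul_and_not_dvd (n := 2 * N) (by omega) 3 (by norm_num)
  have hmpos : 0 < m := by
    rcases Nat.eq_zero_or_pos m with h | h
    · subst h; simp at hm3
    · exact h
  have hcop : Nat.Coprime 3 m := (Nat.Prime.coprime_iff_not_dvd Nat.prime_three).mpr hm3
  have htot : 0 < Nat.totient m := Nat.totient_pos.mpr hmpos
  set h := 2 * N * (Nat.factorial k * (Nat.totient m * (e + a + 1))) with hh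
  have hge : e + a + 1 ≤ h := by
    have h1 : 1 ≤ 2 * N := by omega
    have h2 : 1 ≤ Nat.factorial k := Nat.factorial_pos k
    calc e + a + 1 = 1 * (1 * (1 * (e + a + 1))) := by ring
      _ ≤ 2 * N * (Nat.factorial k * (Nat.totient m * (e + a + 1))) := by gcongr; omega
  refine ⟨h, by omega, ?_, by omega, ?_, ?_⟩
  · rw [hh, mul_assoc]; exact even_two_mul _
  · have h1 : (3 : ℕ) ^ h ≡ 1 [MOD m] := by
      have h2 : (3 : ℕ) ^ Nat.totient m ≡ 1 [MOD m] := Nat.ModEq.pow_totient hcop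
      have h3 : h = Nat.totient m * (2 * N * (Nat.factorial k * (e + a + 1))) := by
        rw [hh]; ring
      rw [h3, pow_mul]
      simpa using h2.pow (2 * N * (Nat.factorial k * (e + a + 1)))
    have h4 : (m : ℤ) ∣ (3:ℤ)^h - 1 := by
      have := (Nat.modEq_iff_dvd.mp h1.symm)
      push_cast at this
      exact this
    obtain ⟨c, hc⟩ := h4
    have h5 : (3:ℤ)^e ∣ (3:ℤ)^h := pow_dvd_pow _ (by omega)
    obtain ⟨d, hd⟩ := h5
    refine ⟨d * c, ?_⟩
    have h6 : (2 * N : ℤ) = 3 ^ e * m := by exact_mod_cast hm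
    calc (3:ℤ)^h * (3^h - 1) = (3^e * d) * (m * c) := by rw [← hc, ← hd]
      _ = (3 ^ e * m) * (d * c) := by ring
      _ = 2 * N * (d * c) := by rw [← h6]
  · intro j hj1 hjk
    obtain ⟨i, rfl⟩ : ∃ i, j = i + 1 := ⟨j - 1, by omega⟩
    obtain ⟨n, hn⟩ : ∃ n, h = n + 1 := ⟨h - 1, by omega⟩
    have h1 := Nat.add_one_mul_choose_eq n i
    rw [← hn] at h1
    have h2 : (i + 1) ∣ Nat.factorial k := Nat.dvd_factorial (by omega) hjk
    obtain ⟨r, hr⟩ := h2
    refine ⟨r * (Nat.totient m * (e + a + 1)) * n.choose i, ?_⟩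
    have h3 : h * n.choose i = (2 * N * (r * (Nat.totient m * (e + a + 1)) * n.choose i)) * (i + 1) := by
      rw [hh, hr]; ring
    rw [h3] at h1
    exact (Nat.eq_of_mul_eq_mul_right (by omega) h1).symm

lemma one_mem_SM {k a : ℕ} (hk : 0 < k) (hneg : ∀ l, a ≤ l → - y l ∈ SM k a)
    (hdet : (M k a).det ≠ 0) : (1 : PowerSeries ℚ) ∈ SM k a := by
  obtain ⟨N, hN, hNL⟩ := exists_N hneg hdet
  obtain ⟨h, hah, heven, hpos, ⟨q, hq⟩, hch⟩ := exists_h k a N hN
  -- w = 3^h is odd
  obtain ⟨D0, hD0⟩ : ∃ D0 : ℤ, (3:ℤ)^h + 1 = 2 * D0 := by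
    have h1 : Odd ((3:ℤ)^h) := Odd.pow (by decide)
    obtain ⟨t, ht⟩ := h1
    exact ⟨t + 1, by rw [ht]; ring⟩
  set w : ℤ := (3:ℤ)^h with hw
  set c : ℤ := 2 - w with hc
  -- c * D0 = 1 - N q
  have hcD : c * D0 = 1 - N * q := by
    have h1 : 2 * (c * D0) = 2 * (1 - N * q) := by
      have : 2 * (c * D0) = c * (w + 1) := by rw [hD0]; ring
      rw [this, hc]
      have : (2 - w) * (w + 1) = 2 - w * (w - 1) := by ring
      rw [this, hq]; ring
    linarith
  -- P
  set P : PowerSeries ℚ := (w : PowerSeries ℚ) * z ^ h with hP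
  have hwC : (w : PowerSeries ℚ) = PowerSeries.C (w : ℚ) := by simp
  have hcoeffP : ∀ j, j ≤ k → PowerSeries.coeff j P = (-3) ^ j * (h.choose j : ℚ) := by
    intro j hj
    rw [hP, hwC, PowerSeries.coeff_C_mul, coeff_z_pow]
    by_cases hjh : j ≤ h
    · have h1 : (w : ℚ) = (-3) ^ j * (-3) ^ (h - j) := by
        rw [← pow_add, show j + (h - j) = h by omega, heven.neg_pow, hw]; push_cast; rfl
      rw [h1]
      have h2 : ((-3 : ℚ)) ^ (h - j) * (-1/3) ^ (h - j) = 1 := by
        rw [← mul_pow]; norm_num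
      calc (-3 : ℚ) ^ j * (-3) ^ (h - j) * ((-1 / 3) ^ (h - j) * (h.choose j : ℚ))
          = (-3) ^ j * ((-3) ^ (h - j) * (-1 / 3) ^ (h - j)) * (h.choose j : ℚ) := by ring
        _ = _ := by rw [h2, mul_one]
    · rw [Nat.choose_eq_zero_of_lt (by omega)]; simp
  set D : PowerSeries ℚ := PowerSeries.C (1/2 : ℚ) * ((w : PowerSeries ℚ) + P) with hD
  have hyD : y h * D = P := by
    have h1 := y_mul h
    have h2 : y h * ((w : PowerSeries ℚ) + P) = 2 * P := by
      rw [hP]
      calc y h * ((w : PowerSeries ℚ) + w * z ^ h) = w * (y h * (1 + z ^ h)) := by ring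
        _ = _ := by rw [h1]; ring
    have h3 : PowerSeries.C (1/2 : ℚ) * 2 = (1 : PowerSeries ℚ) := by
      have : (2 : PowerSeries ℚ) = PowerSeries.C (2 : ℚ) := (map_ofNat _ 2).symm
      rw [this, ← map_mul]; norm_num
    calc y h * D = PowerSeries.C (1/2 : ℚ) * (y h * ((w : PowerSeries ℚ) + P)) := by rw [hD]; ring
      _ = PowerSeries.C (1/2 : ℚ) * 2 * P := by rw [h2]; ring
      _ = P := by rw [h3, one_mul]
  -- coefficients of D
  have hcoeffD0 : PowerSeries.coeff 0 D = (D0 : ℚ) := by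
    rw [hD, PowerSeries.coeff_C_mul, map_add, hcoeffP 0 (by omega), hwC, PowerSeries.coeff_C]
    have : (w : ℚ) + 1 = 2 * D0 := by exact_mod_cast hD0
    simp only [if_true, pow_zero, Nat.choose_zero_right, Nat.cast_one, mul_one]
    rw [this]; ring
  have hcoeffDj : ∀ j, 1 ≤ j → j ≤ k → PowerSeries.coeff j D = (1/2) * ((-3) ^ j * (h.choose j : ℚ)) := by
    intro j hj hjk
    rw [hD, PowerSeries.coeff_C_mul, map_add, hcoeffP j hjk, hwC, PowerSeries.coeff_C,
      if_neg (by omega), zero_add]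
  have hDint : Lint k D := by
    intro j hj
    rcases Nat.eq_zero_or_pos j with h0 | h0
    · subst h0; exact ⟨D0, hcoeffD0⟩
    · obtain ⟨r, hr⟩ := hch j h0 hj.le
      refine ⟨(-3)^j * (N * r), ?_⟩
      rw [hcoeffDj j h0 hj.le, hr]
      push_cast; ring
  -- E
  set E : PowerSeries ℚ := PowerSeries.C (1/(N:ℚ)) * (P - (c : PowerSeries ℚ) * D) with hE
  have hNq : (N : ℚ) ≠ 0 := by exact_mod_cast hN.ne'
  have hcC : (c : PowerSeries ℚ) = PowerSeries.C (c : ℚ) := by simp
  have hEint : Lint k E := by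
    intro j hj
    rcases Nat.eq_zero_or_pos j with h0 | h0
    · subst h0
      refine ⟨q, ?_⟩
      rw [hE, PowerSeries.coeff_C_mul, map_sub, hcoeffP 0 (by omega), hcC, PowerSeries.coeff_C_mul, hcoeffD0]
      have h1 : (c : ℚ) * D0 = 1 - N * q := by exact_mod_cast hcD
      rw [h1]
      simp only [pow_zero, Nat.choose_zero_right, Nat.cast_one, mul_one]
      field_simp; ring
    · obtain ⟨r, hr⟩ := hch j h0 hj.le
      refine ⟨(-3)^j * (r * w), ?_⟩
      rw [hE, PowerSeries.coeff_C_mul, map_sub, hcoeffP j hj.le, hcC, PowerSeries.coeff_C_mul,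
        hcoeffDj j h0 hj.le, hr, hc]
      push_cast
      field_simp
      ring
  have hEeq : (y h - c) * D = N * E := by
    have h1 : (N : PowerSeries ℚ) * PowerSeries.C (1/(N:ℚ)) = 1 := by
      have : (N : PowerSeries ℚ) = PowerSeries.C (N : ℚ) := by simp
      rw [this, ← map_mul]; simp [hNq]
    calc (y h - c) * D = P - c * D := by rw [sub_mul, hyD]
      _ = ((N : PowerSeries ℚ) * PowerSeries.C (1/(N:ℚ))) * (P - c * D) := by rw [h1, one_mul]
      _ = N * E := by rw [hE, mul_assoc]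
  -- Q
  set x : PowerSeries ℚ := (D0 : PowerSeries ℚ) with hx
  set v : PowerSeries ℚ := x - D with hv
  set Q : PowerSeries ℚ := ∑ i ∈ Finset.range k, x ^ i * v ^ (k - 1 - i) with hQ
  have hQint : Lint k Q := by
    apply Lint.sum
    intro i _
    exact ((Lint_intCast k D0).pow i).mul (((Lint_intCast k D0).sub hDint).pow _)
  have hgeom : Q * D = x ^ k - v ^ k := by
    have := (Commute.all x v).geom_sum₂_mul k
    rw [hv, sub_sub_cancel] at this
    exact this
  have hXv : PowerSeries.X ^ k ∣ v ^ k := by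
    apply pow_dvd_pow_of_dvd
    rw [PowerSeries.X_dvd_iff, hv, map_sub, ← PowerSeries.coeff_zero_eq_constantCoeff_apply,
      ← PowerSeries.coeff_zero_eq_constantCoeff_apply, hcoeffD0, hx]
    have : (D0 : PowerSeries ℚ) = PowerSeries.C (D0 : ℚ) := by simp
    rw [this]; simp
  -- D0^k (y_h - c)
  have hmain : (D0 ^ k) • (y h - (c : PowerSeries ℚ)) = N • (E * Q) + (y h - c) * v ^ k := by
    have h1 : x ^ k = Q * D + v ^ k := by rw [hgeom]; ring
    rw [zsmul_eq_mul, nsmul_eq_mul]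
    push_cast
    rw [← hx, h1]
    calc (Q * D + v ^ k) * (y h - (c : PowerSeries ℚ)) = Q * ((y h - c) * D) + (y h - c) * v ^ k := by ring
      _ = _ := by rw [hEeq]; ring
  have hmem1 : (D0 ^ k) • (y h - (c : PowerSeries ℚ)) ∈ SM k a := by
    rw [hmain]
    exact add_mem (hNL _ (hEint.mul hQint)) (dvd_mem (Dvd.dvd.mul_left hXv _))
  have hmem2 : (D0 ^ k * c) • (1 : PowerSeries ℚ) ∈ SM k a := by
    have h1 : (D0 ^ k * c) • (1 : PowerSeries ℚ) = (D0 ^ k) • y h + -((D0 ^ k) • (y h - (c : PowerSeries ℚ))) := by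
      rw [smul_sub, neg_sub, zsmul_eq_mul, zsmul_eq_mul, zsmul_eq_mul]
      push_cast; ring
    rw [h1]
    exact add_mem (zsmul_mem_SM hneg (y_mem hah) _) (neg_mem_SM hneg hmem1)
  have hmem3 : (N : ℕ) • (1 : PowerSeries ℚ) ∈ SM k a := by
    apply hNL
    simpa using Lint_intCast k 1
  -- (c D0)^k = 1 + N r
  obtain ⟨r, hr⟩ : ∃ r : ℤ, (c * D0) ^ k = 1 + N * r := by
    have h1 : (N : ℤ) ∣ (c * D0) ^ k - 1 ^ k := by
      refine Dvd.dvd.trans ?_ (sub_dvd_pow_sub_pow (c * D0) 1 k)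
      rw [hcD]
      exact ⟨-q, by ring⟩
    obtain ⟨r, hr⟩ := h1
    exact ⟨r, by rw [← hr]; ring⟩
  have hfin : (1 : PowerSeries ℚ) = (c ^ (k - 1)) • ((D0 ^ k * c) • (1 : PowerSeries ℚ))
      + (-r) • ((N : ℕ) • (1 : PowerSeries ℚ)) := by
    rw [smul_smul, ← natCast_zsmul, smul_smul, ← add_smul]
    have h1 : c ^ (k - 1) * (D0 ^ k * c) + -r * (N : ℤ) = 1 := by
      have h2 : c ^ (k - 1) * (D0 ^ k * c) = (c * D0) ^ k := by
        rw [mul_pow]
        have : c ^ k = c ^ (k - 1) * c := by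
          rw [← pow_succ]; congr 1; omega
        rw [this]; ring
      rw [h2, hr]; ring
    rw [h1, one_smul]
  rw [hfin]
  exact add_mem (zsmul_mem_SM hneg hmem2 _) (zsmul_mem_SM hneg hmem3 _)

/-- Main arithmetic statement: there is a list of lengths at least `b` with `∑ y_l ≡ 1 mod X^k`. -/
theorem exists_lengths (k b : ℕ) (hk : 0 < k) : ∃ L : List ℕ, (∀ l ∈ L, b ≤ l) ∧
    PowerSeries.X ^ k ∣ (L.map y).sum - 1 := by
  have h1 := eventually_pos k
  obtain ⟨a0, ha0⟩ := eventually_atTop.mp h1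
  set a := max a0 b with ha
  have hneg : ∀ l, a ≤ l → - y l ∈ SM k a := fun l hl =>
    neg_y_mem hk hl (ha0 l (le_trans (le_max_left _ _) hl))
  have hdet : (M k a).det ≠ 0 := (ha0 a (le_max_left _ _)).1.ne'
  have hone := one_mem_SM hk hneg hdet
  -- decompose
  have key : ∀ p ∈ SM k a, ∃ L : List ℕ, (∀ l ∈ L, b ≤ l) ∧ PowerSeries.X ^ k ∣ (L.map y).sum - p := by
    intro p hp
    unfold SM at hp
    induction hp using AddSubmonoid.closure_induction with
    | mem x hx =>
      rcases hx with ⟨l, hl, rfl⟩ | hx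
      · refine ⟨[l], ?_, ?_⟩
        · intro l' hl'
          rw [List.mem_singleton] at hl'
          subst hl'
          exact le_trans (le_max_right _ _) hl
        · simp
      · refine ⟨[], by simp, ?_⟩
        simpa using hx
    | zero => exact ⟨[], by simp, by simp⟩
    | add x y' _ _ hx hy =>
      obtain ⟨L1, h1, h2⟩ := hx
      obtain ⟨L2, h3, h4⟩ := hy
      refine ⟨L1 ++ L2, ?_, ?_⟩
      · intro l hl
        rcases List.mem_append.mp hl with h | h
        · exact h1 l h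
        · exact h3 l h
      · rw [List.map_append, List.sum_append]
        have : (L1.map y).sum + (L2.map y).sum - (x + y') = ((L1.map y).sum - x) + ((L2.map y).sum - y') := by
          ring
        rw [this]
        exact dvd_add h2 h4
  exact key 1 hone


/-! ### From series to Jordan chains -/

section chain

variable {D : Type*} [Fintype D] [DecidableEq D]

lemma exists_block_of_chain (N : Matrix D D ℂ) (s : ℕ) (hs : 1 ≤ s) (x : D → ℂ)
    (h0 : (N ^ s).mulVec x = 0) (h1 : (N ^ (s - 1)).mulVec x ≠ 0) :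
    ∃ t, s ≤ t ∧ 2 * (N ^ t).rank < (N ^ (t - 1)).rank + (N ^ (t + 1)).rank := by
  by_contra hcon
  push Not at hcon
  -- strict drop at s
  have hdrop : (N ^ s).rank < (N ^ (s - 1)).rank := by
    have hk : LinearMap.ker (N ^ (s-1)).mulVecLin < LinearMap.ker (N ^ s).mulVecLin := by
      rw [lt_iff_le_not_ge]
      constructor
      · intro v hv
        rw [LinearMap.mem_ker, Matrix.mulVecLin_apply] at hv ⊢
        have : N ^ s = N * N ^ (s - 1) := by
          rw [← pow_succ']; congr 1; omega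
        rw [this, ← Matrix.mulVec_mulVec, hv, Matrix.mulVec_zero]
      · intro hle
        have : x ∈ LinearMap.ker (N ^ (s-1)).mulVecLin := hle (by
          rw [LinearMap.mem_ker, Matrix.mulVecLin_apply]; exact h0)
        rw [LinearMap.mem_ker, Matrix.mulVecLin_apply] at this
        exact h1 this
    have h2 := Submodule.finrank_lt_finrank_of_lt hk
    have h3 := LinearMap.finrank_range_add_finrank_ker (N ^ (s-1)).mulVecLin
    have h4 := LinearMap.finrank_range_add_finrank_ker (N ^ s).mulVecLin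
    unfold Matrix.rank
    omega
  have key : ∀ m, (N ^ (s + m)).rank + (m + 1) ≤ (N ^ (s - 1)).rank ∧
      (N ^ (s + m)).rank < (N ^ (s + m - 1)).rank := by
    intro m
    induction m with
    | zero => simp only [add_zero]; omega
    | succ m ih =>
      have h5 := hcon (s + m) (by omega)
      show (N ^ (s + m + 1)).rank + (m + 1 + 1) ≤ (N ^ (s - 1)).rank ∧
        (N ^ (s + m + 1)).rank < (N ^ (s + m)).rank
      omega
  have := (key (N ^ (s - 1)).rank).1
  omega

lemma blockSize_le (M : Matrix D D ℂ) (μ : ℂ) (s : ℕ) (h : IsJordanBlockSize M μ s) :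
    s ≤ Fintype.card D := by
  by_contra hcon
  push Not at hcon
  set N := M - Matrix.scalar D μ with hN
  have hconst : ∀ m, Fintype.card D ≤ m → (N ^ m).rank = (N ^ (Fintype.card D)).rank := by
    intro m hm
    have h1 : Module.finrank ℂ (D → ℂ) ≤ m := by
      rw [Module.finrank_fintype_fun_eq_card]; exact hm
    have h2 := Module.End.ker_pow_eq_ker_pow_finrank_of_le (f := (N.mulVecLin : Module.End ℂ (D → ℂ))) h1
    rw [Module.finrank_fintype_fun_eq_card] at h2
    have hp : ∀ j, (N ^ j).mulVecLin = (N.mulVecLin : Module.End ℂ (D → ℂ)) ^ j := by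
      intro j
      rw [← Matrix.toLin'_apply', ← Matrix.toLin'_apply', Matrix.toLin'_pow]
    have h3 := LinearMap.finrank_range_add_finrank_ker (N ^ m).mulVecLin
    have h4 := LinearMap.finrank_range_add_finrank_ker (N ^ (Fintype.card D)).mulVecLin
    unfold Matrix.rank
    rw [← hp, ← hp] at h2
    rw [h2] at h3
    omega
  have h1 := hconst s (by omega)
  have h2 := hconst (s - 1) (by omega)
  have h3 := hconst (s + 1) (by omega)
  have h4 := h.2
  rw [← hN] at h4
  omega

/-- From an approximate eigenvector with power series entries to a Jordan chain. -/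
lemma chain_of_series (B : Matrix D D ℂ) (μ : ℂ) (k : ℕ) (hk : 1 ≤ k) (g : D → PowerSeries ℂ)
    (lam u : PowerSeries ℂ) (hlam : lam = PowerSeries.C μ + PowerSeries.X * u)
    (hu : PowerSeries.constantCoeff u ≠ 0)
    (hg : ∀ d, PowerSeries.X ^ k ∣ (∑ e, PowerSeries.C (B d e) * g e) - lam * g d)
    (d0 : D) (hd0 : PowerSeries.constantCoeff (g d0) ≠ 0) :
    ((B - Matrix.scalar D μ) ^ k).mulVec (fun d => PowerSeries.coeff (k - 1) (g d)) = 0 ∧
    ((B - Matrix.scalar D μ) ^ (k - 1)).mulVec (fun d => PowerSeries.coeff (k - 1) (g d)) ≠ 0 := by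
  have claim : ∀ j, ((B - Matrix.scalar D μ) ^ j).mulVec (fun d => PowerSeries.coeff (k - 1) (g d))
      = fun d => PowerSeries.coeff (k - 1) ((PowerSeries.X * u) ^ j * g d) := by
    intro j
    induction j with
    | zero => simp
    | succ j ih =>
      rw [pow_succ', ← Matrix.mulVec_mulVec, ih]
      funext d
      rw [Matrix.sub_mulVec]
      simp only [Pi.sub_apply, Matrix.mulVec, dotProduct]
      have h1 : ∑ e, B d e * PowerSeries.coeff (k - 1) ((PowerSeries.X * u) ^ j * g e)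
          = PowerSeries.coeff (k - 1) ((PowerSeries.X * u) ^ j * ∑ e, PowerSeries.C (B d e) * g e) := by
        rw [Finset.mul_sum, map_sum]
        apply Finset.sum_congr rfl
        intro e _
        rw [← PowerSeries.coeff_C_mul]
        congr 1; ring
      have h2 : ∑ e, (Matrix.scalar D μ) d e * PowerSeries.coeff (k - 1) ((PowerSeries.X * u) ^ j * g e)
          = PowerSeries.coeff (k - 1) (PowerSeries.C μ * ((PowerSeries.X * u) ^ j * g d)) := by
        rw [Finset.sum_eq_single d]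
        · rw [PowerSeries.coeff_C_mul]; simp
        · intro e _ he
          simp [Matrix.scalar_apply, Matrix.diagonal_apply_ne _ he.symm]
        · intro h; exact absurd (Finset.mem_univ d) h
      rw [h1, h2]
      obtain ⟨r, hr⟩ := hg d
      have h3 : ∑ e, PowerSeries.C (B d e) * g e = lam * g d + PowerSeries.X ^ k * r := by
        rw [← hr]; ring
      rw [h3, ← map_sub]
      have h4 : (PowerSeries.X * u) ^ j * (lam * g d + PowerSeries.X ^ k * r) -
          PowerSeries.C μ * ((PowerSeries.X * u) ^ j * g d) =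
          (PowerSeries.X * u) ^ (j + 1) * g d + PowerSeries.X ^ k * ((PowerSeries.X * u) ^ j * r) := by
        rw [hlam]; ring
      rw [h4, map_add, PowerSeries.coeff_X_pow_mul', if_neg (by omega), add_zero]
  constructor
  · rw [claim]
    funext d
    rw [mul_pow, mul_assoc, PowerSeries.coeff_X_pow_mul', if_neg (by omega)]
    rfl
  · rw [claim]
    intro h
    have h1 := congrFun h d0
    simp only [Pi.zero_apply] at h1
    rw [mul_pow, mul_assoc, PowerSeries.coeff_X_pow_mul', if_pos le_rfl] at h1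
    simp only [Nat.sub_self, PowerSeries.coeff_zero_eq_constantCoeff, map_mul, map_pow] at h1
    exact (mul_ne_zero (pow_ne_zero _ hu) hd0) h1

end chain

section graph

variable {V : Type*} [Fintype V] (G : SimpleGraph V) [Fintype G.Dart]

open Classical in
lemma sum_fst (v : V) (Φ : V → V → PowerSeries ℂ) :
    ∑ e ∈ Finset.univ.filter (fun e : G.Dart => e.fst = v), Φ e.fst e.snd
      = ∑ w ∈ Finset.univ.filter (fun w => G.Adj v w), Φ v w := by
  refine Finset.sum_bij' (fun e _ => e.snd)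
    (fun w hw => ⟨(v, w), (Finset.mem_filter.mp hw).2⟩) ?_ ?_ ?_ ?_ ?_
  · intro e he
    rw [Finset.mem_filter] at he ⊢
    refine ⟨Finset.mem_univ _, ?_⟩
    have := e.adj
    rw [he.2] at this
    exact this
  · intro w hw
    rw [Finset.mem_filter]
    exact ⟨Finset.mem_univ _, rfl⟩
  · intro e he
    rw [Finset.mem_filter] at he
    ext
    · exact he.2.symm
    · rfl
  · intro w hw
    rfl
  · intro e he
    rw [Finset.mem_filter] at he
    rw [he.2]

open Classical in
omit [Fintype V] in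
lemma nb_sum (d : G.Dart) (φ : G.Dart → PowerSeries ℂ) :
    ∑ e, PowerSeries.C (nbMatrix G d e) * φ e
      = ∑ e ∈ Finset.univ.filter (fun e : G.Dart => e.fst = d.snd), φ e - φ d.symm := by
  rw [eq_sub_iff_add_eq, Finset.sum_filter]
  have h1 : φ d.symm = ∑ e, if e = d.symm then φ e else 0 := by
    rw [Finset.sum_ite_eq' Finset.univ d.symm φ]; simp
  rw [h1, ← Finset.sum_add_distrib]
  apply Finset.sum_congr rfl
  intro e _
  unfold nbMatrix
  by_cases h2 : e.fst = d.snd
  · by_cases h3 : e.snd = d.fst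
    · have h4 : e = d.symm := by
        ext
        · exact h2
        · exact h3
      rw [if_neg (by rintro ⟨_, h⟩; exact h h3.symm), if_pos h4, if_pos h2]
      simp
    · have h4 : e ≠ d.symm := by
        rintro rfl
        exact h3 rfl
      rw [if_pos ⟨h2.symm, fun h => h3 h.symm⟩, if_neg h4, if_pos h2]
      simp
  · have h4 : e ≠ d.symm := by
      rintro rfl
      exact h2 rfl
    rw [if_neg (by rintro ⟨h, _⟩; exact h2 h.symm), if_neg h4, if_neg h2]
    simp

open Classical in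
lemma eig_of_vertex (k : ℕ) (h : V → PowerSeries ℂ) (z lam : PowerSeries ℂ) (hl : lam * z = 1)
    (hv : ∀ v, PowerSeries.X ^ k ∣
      z * (∑ w ∈ Finset.univ.filter (fun w => G.Adj v w), (h w - z * h v)) - (1 - z ^ 2) * h v)
    (d : G.Dart) :
    PowerSeries.X ^ k ∣ (∑ e, PowerSeries.C (nbMatrix G d e) * (h e.snd - z * h e.fst))
      - lam * (h d.snd - z * h d.fst) := by
  rw [nb_sum G d (fun e => h e.snd - z * h e.fst)]
  rw [sum_fst G d.snd (fun v w => h w - z * h v)]
  obtain ⟨r, hr⟩ := hv d.snd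
  set S := ∑ w ∈ Finset.univ.filter (fun w => G.Adj d.snd w), (h w - z * h d.snd) with hS
  have h1 : z * S = (1 - z ^ 2) * h d.snd + PowerSeries.X ^ k * r := by
    rw [← hr]; ring
  refine ⟨lam * r, ?_⟩
  have h2 : S = lam * (z * S) := by rw [← mul_assoc, hl, one_mul]
  rw [h2, h1]
  show lam * ((1 - z ^ 2) * h d.snd + PowerSeries.X ^ k * r) - (h d.fst - z * h d.snd) -
      lam * (h d.snd - z * h d.fst) = PowerSeries.X ^ k * (lam * r)
  have h3 : lam * ((1 - z ^ 2) * h d.snd + PowerSeries.X ^ k * r) - (h d.fst - z * h d.snd) -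
      lam * (h d.snd - z * h d.fst) = PowerSeries.X ^ k * (lam * r) + (lam * z - 1) * (h d.fst - z * h d.snd) := by
    ring
  rw [h3, hl]; ring

end graph

section flower

variable {ι : Type*} (L : ι → ℕ)

/-- vertices of the flower graph: the hub `none` and the inner vertices of the petals -/
abbrev FV {ι : Type*} (L : ι → ℕ) : Type _ := Option (Σ i : ι, Fin (L i - 1))

/-- adjacency: petal `i` is a cycle of length `L i` through the hub -/
def flowerAdj : FV L → FV L → Prop
  | none, none => False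
  | none, some p => (p.2 : ℕ) = 0 ∨ (p.2 : ℕ) + 2 = L p.1
  | some p, none => (p.2 : ℕ) = 0 ∨ (p.2 : ℕ) + 2 = L p.1
  | some p, some q => p.1 = q.1 ∧ ((p.2 : ℕ) + 1 = (q.2 : ℕ) ∨ (q.2 : ℕ) + 1 = (p.2 : ℕ))

def flower : SimpleGraph (FV L) where
  Adj := flowerAdj L
  symm := ⟨by
    intro u v h
    rcases u with _ | p <;> rcases v with _ | q
    · exact h
    · exact h
    · exact h
    · exact ⟨h.1.symm, h.2.symm⟩⟩
  loopless := ⟨by
    intro u h
    rcases u with _ | p
    · exact h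
    · rcases h.2 with h | h <;> omega⟩

variable [Fintype ι]

open Classical in
/-- neighbour sum at the hub -/
lemma sum_hub (hL : ∀ i, 3 ≤ L i) (φ : ℕ → ι → PowerSeries ℂ)
    (f : FV L → PowerSeries ℂ) (hf : ∀ i (j : Fin (L i - 1)), f (some ⟨i, j⟩) = φ (j + 1) i) :
    ∑ w ∈ Finset.univ.filter (fun w => (flower L).Adj none w), f w
      = ∑ i, (φ 1 i + φ (L i - 1) i) := by
  rw [Finset.sum_filter, Fintype.sum_option, Fintype.sum_sigma]
  have h0 : ¬ (flower L).Adj none none := fun h => h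
  rw [if_neg h0, zero_add]
  apply Finset.sum_congr rfl
  intro i _
  have h1 : ∀ j : Fin (L i - 1), (if (flower L).Adj none (some ⟨i, j⟩) then f (some ⟨i, j⟩) else 0)
      = (fun j : ℕ => if j = 0 ∨ j + 2 = L i then φ (j + 1) i else 0) j := by
    intro j
    rw [hf]
    have : (flower L).Adj none (some ⟨i, j⟩) ↔ ((j : ℕ) = 0 ∨ (j : ℕ) + 2 = L i) := Iff.rfl
    simp only [this]
  simp only [h1]
  rw [Fin.sum_univ_eq_sum_range (fun j : ℕ => if j = 0 ∨ j + 2 = L i then φ (j + 1) i else 0)]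
  have hLi := hL i
  have h2 : ∀ j ∈ Finset.range (L i - 1), (if j = 0 ∨ j + 2 = L i then φ (j + 1) i else 0)
      = (if j = 0 then φ 1 i else 0) + (if j = L i - 2 then φ (L i - 1) i else 0) := by
    intro j hj
    rw [Finset.mem_range] at hj
    by_cases ha : j = 0
    · subst ha
      rw [if_pos (Or.inl rfl), if_pos rfl, if_neg (by omega), add_zero]
    · by_cases hb : j + 2 = L i
      · rw [if_pos (Or.inr hb), if_neg ha, if_pos (by omega), zero_add]
        congr 1; omega
      · rw [if_neg (by tauto), if_neg ha, if_neg (by omega), add_zero]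
  rw [Finset.sum_congr rfl h2, Finset.sum_add_distrib, Finset.sum_ite_eq', Finset.sum_ite_eq',
    if_pos (Finset.mem_range.mpr (by omega)), if_pos (Finset.mem_range.mpr (by omega))]

open Classical in
/-- neighbour sum at an inner vertex -/
lemma sum_inner (hL : ∀ i, 3 ≤ L i) (i : ι) (j : Fin (L i - 1)) (φ : ℕ → PowerSeries ℂ)
    (f : FV L → PowerSeries ℂ) (hf : ∀ (j' : Fin (L i - 1)), f (some ⟨i, j'⟩) = φ (j' + 1))
    (hf0 : φ 0 = f none) (hfL : φ (L i) = f none) :
    ∑ w ∈ Finset.univ.filter (fun w => (flower L).Adj (some ⟨i, j⟩) w), f w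
      = φ j + φ (j + 2) := by
  rw [Finset.sum_filter, Fintype.sum_option, Fintype.sum_sigma]
  rw [Fintype.sum_eq_single i]
  · have h1 : ∀ j' : Fin (L i - 1), (if (flower L).Adj (some ⟨i, j⟩) (some ⟨i, j'⟩) then f (some ⟨i, j'⟩) else 0)
      = (fun j' : ℕ => if (j : ℕ) + 1 = j' ∨ j' + 1 = (j : ℕ) then φ (j' + 1) else 0) j' := by
      intro j'
      rw [hf]
      have : (flower L).Adj (some ⟨i, j⟩) (some ⟨i, j'⟩) ↔ ((j : ℕ) + 1 = j' ∨ (j' : ℕ) + 1 = (j : ℕ)) := by
        constructor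
        · intro h; exact h.2
        · intro h; exact ⟨rfl, h⟩
      simp only [this]
    simp only [h1]
    rw [Fin.sum_univ_eq_sum_range (fun j' : ℕ => if (j : ℕ) + 1 = j' ∨ j' + 1 = (j : ℕ) then φ (j' + 1) else 0)]
    have hLi := hL i
    have hj := j.2
    have h2 : ∀ j' ∈ Finset.range (L i - 1), (if (j : ℕ) + 1 = j' ∨ j' + 1 = (j : ℕ) then φ (j' + 1) else 0)
      = (if j' = (j : ℕ) + 1 then φ (j + 2) else 0) + (if j' + 1 = (j : ℕ) then φ j else 0) := by
      intro j' hj'
      by_cases ha : j' = (j : ℕ) + 1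
      · subst ha
        rw [if_pos (Or.inl rfl), if_pos rfl, if_neg (by omega), add_zero]
      · by_cases hb : j' + 1 = (j : ℕ)
        · rw [if_pos (Or.inr hb), if_neg ha, if_pos hb, zero_add, hb]
        · rw [if_neg (by omega), if_neg ha, if_neg hb, add_zero]
    rw [Finset.sum_congr rfl h2, Finset.sum_add_distrib, Finset.sum_ite_eq']
    have hA : (flower L).Adj (some ⟨i, j⟩) none ↔ ((j : ℕ) = 0 ∨ (j : ℕ) + 2 = L i) := Iff.rfl
    rcases Nat.eq_zero_or_pos (j : ℕ) with h0 | h0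
    · -- j = 0
      rw [if_pos (hA.mpr (Or.inl h0)), if_pos (Finset.mem_range.mpr (by omega))]
      have h3 : ∑ j' ∈ Finset.range (L i - 1), (if j' + 1 = (j : ℕ) then φ j else 0) = 0 := by
        apply Finset.sum_eq_zero
        intro j' _
        rw [if_neg (by omega)]
      rw [h3, add_zero, h0, hf0]
    · obtain ⟨m, hm⟩ : ∃ m, (j : ℕ) = m + 1 := ⟨(j : ℕ) - 1, by omega⟩
      have h3 : ∑ j' ∈ Finset.range (L i - 1), (if j' + 1 = (j : ℕ) then φ j else 0) = φ j := by
        have h4 : ∀ j', (if j' + 1 = (j : ℕ) then φ j else 0) = (if j' = m then φ j else 0) := by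
          intro j'
          by_cases h : j' = m
          · rw [if_pos h, if_pos (by omega)]
          · rw [if_neg h, if_neg (by omega)]
        simp only [h4]
        rw [Finset.sum_ite_eq', if_pos (Finset.mem_range.mpr (by omega))]
      rw [h3]
      by_cases h5 : (j : ℕ) + 2 = L i
      · rw [if_pos (hA.mpr (Or.inr h5)), if_neg (by rw [Finset.mem_range]; omega), zero_add, h5, hfL]
        ring
      · rw [if_neg (by rw [hA]; omega), if_pos (Finset.mem_range.mpr (by omega))]
        ring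
  · intro i' hi'
    apply Finset.sum_eq_zero
    intro j' _
    rw [if_neg]
    intro h
    exact hi' h.1.symm

end flower



/-! ### The flower graph has a long Jordan chain -/

section flowerchain

variable {ι : Type*} [Fintype ι] (L : ι → ℕ)

/-- `z` with complex coefficients -/
noncomputable def zc : PowerSeries ℂ := PowerSeries.map (algebraMap ℚ ℂ) z

noncomputable def ic (l : ℕ) : PowerSeries ℂ := PowerSeries.map (algebraMap ℚ ℂ) ((1 + z ^ l)⁻¹)

noncomputable def yc (l : ℕ) : PowerSeries ℂ := PowerSeries.map (algebraMap ℚ ℂ) (y l)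

lemma ic_mul (l : ℕ) : ic l * (1 + zc ^ l) = 1 := by
  unfold ic zc
  rw [← map_pow, ← map_one (PowerSeries.map (algebraMap ℚ ℂ)), ← map_add, ← map_mul,
    PowerSeries.inv_mul_cancel _ (one_add_ne l)]

lemma yc_eq (l : ℕ) : yc l = 2 * zc ^ l * ic l := by
  unfold yc y ic zc
  rw [map_mul, map_mul, map_pow]
  have h2 : PowerSeries.map (algebraMap ℚ ℂ) 2 = 2 := map_ofNat _ 2
  rw [h2]

lemma constCoeff_zc : PowerSeries.constantCoeff zc = -1/3 := by
  have h := constCoeff_z_pow 1
  rw [pow_one, pow_one] at h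
  unfold zc
  rw [← PowerSeries.coeff_zero_eq_constantCoeff_apply, PowerSeries.coeff_map,
    PowerSeries.coeff_zero_eq_constantCoeff_apply, h]
  norm_num

lemma zc_eq : zc = PowerSeries.X - PowerSeries.C (1/3 : ℂ) := by
  unfold zc z
  rw [Polynomial.coe_add, Polynomial.coe_X, Polynomial.coe_C, map_add, PowerSeries.map_X,
    PowerSeries.map_C]
  rw [sub_eq_add_neg, ← map_neg]
  congr 2
  norm_num

noncomputable def lamc : PowerSeries ℂ := zc⁻¹

lemma lamc_mul : lamc * zc = 1 := by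
  unfold lamc
  exact PowerSeries.inv_mul_cancel _ (by rw [constCoeff_zc]; norm_num)

lemma lamc_eq : lamc = PowerSeries.C (-3 : ℂ) + PowerSeries.X * (3 * lamc) := by
  have h1 := lamc_mul
  rw [zc_eq] at h1
  have h3 : (3 : PowerSeries ℂ) * PowerSeries.C (1/3 : ℂ) = 1 := by
    have : (3 : PowerSeries ℂ) = PowerSeries.C (3 : ℂ) := (map_ofNat _ 3).symm
    rw [this, ← map_mul]; norm_num
  have h4 : PowerSeries.C (-3 : ℂ) = -(3 : PowerSeries ℂ) := by
    have h5 : PowerSeries.C (3 : ℂ) = (3 : PowerSeries ℂ) := map_ofNat _ 3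
    rw [map_neg, h5]
  rw [h4]
  have h5 : 3 * (lamc * (PowerSeries.X - PowerSeries.C (1/3 : ℂ))) = 3 := by rw [h1, mul_one]
  have h6 : 3 * (lamc * (PowerSeries.X - PowerSeries.C (1/3 : ℂ)))
      = PowerSeries.X * (3 * lamc) - (3 * PowerSeries.C (1/3 : ℂ)) * lamc := by ring
  rw [h6, h3, one_mul] at h5
  linear_combination -h5

lemma constCoeff_lamc : PowerSeries.constantCoeff lamc = -3 := by
  rw [lamc_eq]
  simp

/-- the values along a petal -/
noncomputable def H (l p : ℕ) : PowerSeries ℂ := (zc ^ p + zc ^ (l - p)) * ic l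

lemma H_zero (l : ℕ) : H l 0 = 1 := by
  unfold H
  rw [pow_zero, Nat.sub_zero, mul_comm, ic_mul]

lemma H_self (l : ℕ) : H l l = 1 := by
  unfold H
  rw [Nat.sub_self, pow_zero, mul_comm, add_comm, ic_mul]

lemma H_rec (l j : ℕ) (hj : j + 2 ≤ l) :
    zc * (H l j + H l (j + 2)) = (1 + zc ^ 2) * H l (j + 1) := by
  unfold H
  obtain ⟨m, hm⟩ : ∃ m, l = j + 2 + m := ⟨l - (j + 2), by omega⟩
  subst hm
  have h1 : j + 2 + m - j = m + 2 := by omega
  have h2 : j + 2 + m - (j + 2) = m := by omega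
  have h3 : j + 2 + m - (j + 1) = m + 1 := by omega
  rw [h1, h2, h3]
  ring

lemma H_hub (l : ℕ) (hl : 3 ≤ l) :
    zc * (H l 1 - zc + (H l (l - 1) - zc)) = (1 - zc ^ 2) * yc l := by
  unfold H
  rw [yc_eq]
  obtain ⟨m, hm⟩ : ∃ m, l = m + 1 := ⟨l - 1, by omega⟩
  subst hm
  have h1 : m + 1 - 1 = m := by omega
  have h2 : m + 1 - m = 1 := by omega
  rw [h1, h2]
  have h3 := ic_mul (m + 1)
  have h4 : zc * ((zc ^ 1 + zc ^ m) * ic (m + 1) - zc + ((zc ^ m + zc ^ 1) * ic (m + 1) - zc))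
      - (1 - zc ^ 2) * (2 * zc ^ (m + 1) * ic (m + 1))
      = 2 * zc ^ 2 * (ic (m + 1) * (1 + zc ^ (m + 1)) - 1) := by ring
  rw [h3, sub_self, mul_zero, sub_eq_zero] at h4
  exact h4

/-- the vertex function -/
noncomputable def hv : FV L → PowerSeries ℂ
  | none => 1
  | some p => H (L p.1) (p.2 + 1)

open Classical in
lemma vertex_eq (k : ℕ) (hL : ∀ i, 3 ≤ L i) (hsum : PowerSeries.X ^ k ∣ (∑ i, yc (L i)) - 1)
    (v : FV L) : PowerSeries.X ^ k ∣
      zc * (∑ w ∈ Finset.univ.filter (fun w => (flower L).Adj v w), (hv L w - zc * hv L v))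
        - (1 - zc ^ 2) * hv L v := by
  rcases v with _ | ⟨i, j⟩
  · rw [sum_hub L hL (fun p i => H (L i) p - zc) (fun w => hv L w - zc * hv L none)
      (by intro i j; simp [hv])]
    have h1 : zc * ∑ i, (H (L i) 1 - zc + (H (L i) (L i - 1) - zc)) = (1 - zc ^ 2) * ∑ i, yc (L i) := by
      rw [Finset.mul_sum, Finset.mul_sum]
      apply Finset.sum_congr rfl
      intro i _
      exact H_hub (L i) (hL i)
    rw [h1]
    have h2 : (1 - zc ^ 2) * ∑ i, yc (L i) - (1 - zc ^ 2) * hv L none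
        = (1 - zc ^ 2) * ((∑ i, yc (L i)) - 1) := by
      simp only [hv]; ring
    rw [h2]
    exact Dvd.dvd.mul_left hsum _
  · have hj := j.2
    have hLi := hL i
    rw [sum_inner L hL i j (fun p => H (L i) p - zc * H (L i) (j + 1))
      (fun w => hv L w - zc * hv L (some ⟨i, j⟩))
      (by intro j'; simp [hv]) (by simp [hv, H_zero]) (by simp [hv, H_self])]
    have h1 := H_rec (L i) j (by omega)
    have h2 : zc * (H (L i) j - zc * H (L i) (j + 1) + (H (L i) (j + 2) - zc * H (L i) (j + 1)))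
        - (1 - zc ^ 2) * hv L (some ⟨i, j⟩) = 0 := by
      simp only [hv]
      linear_combination h1
    rw [h2]
    exact dvd_zero _

lemma flower_block [Fintype (flower L).Dart] [DecidableEq (flower L).Dart]
    (k : ℕ) (hk : 1 ≤ k) (hL : ∀ i, 3 ≤ L i)
    (hsum : PowerSeries.X ^ k ∣ (∑ i, yc (L i)) - 1) :
    Nonempty ι ∧ ∃ t, k ≤ t ∧ IsJordanBlockSize (nbMatrix (flower L)) (-3) t := by
  have hne : Nonempty ι := by
    by_contra hcon
    rw [not_nonempty_iff] at hcon
    rw [Finset.univ_eq_empty, Finset.sum_empty, zero_sub, dvd_neg, PowerSeries.X_pow_dvd_iff] at hsum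
    have := hsum 0 (by omega)
    simp at this
  refine ⟨hne, ?_⟩
  obtain ⟨i0⟩ := hne
  have hLi := hL i0
  have hadj : (flower L).Adj (some ⟨i0, ⟨0, by omega⟩⟩) none := Or.inl rfl
  have hg0 : PowerSeries.constantCoeff (hv L none - zc * hv L (some ⟨i0, ⟨0, by omega⟩⟩)) ≠ 0 := by
    have h1 : hv L none - zc * hv L (some ⟨i0, ⟨0, by omega⟩⟩) = (1 - zc ^ 2) * ic (L i0) := by
      simp only [hv, zero_add]
      unfold H
      obtain ⟨m, hm⟩ : ∃ m, L i0 = m + 1 := ⟨L i0 - 1, by omega⟩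
      have h3 := ic_mul (L i0)
      have h2 : L i0 - 1 = m := by omega
      rw [h2]
      have h5 : zc ^ L i0 = zc ^ m * zc := by rw [hm, pow_succ]
      rw [h5] at h3
      linear_combination (-1 : PowerSeries ℂ) * h3
    rw [h1, map_mul]
    apply mul_ne_zero
    · rw [map_sub, map_pow, constCoeff_zc, map_one]; norm_num
    · intro h0
      have h3 := congrArg PowerSeries.constantCoeff (ic_mul (L i0))
      rw [map_mul, h0, zero_mul, map_one] at h3
      exact zero_ne_one h3
  have hch := chain_of_series (nbMatrix (flower L)) (-3) k hk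
    (fun d => hv L d.snd - zc * hv L d.fst) lamc (3 * lamc) lamc_eq
    (by
      rw [map_mul, constCoeff_lamc]
      have : PowerSeries.constantCoeff (3 : PowerSeries ℂ) = 3 := map_ofNat _ 3
      rw [this]; norm_num)
    (fun d => eig_of_vertex (flower L) k (hv L) zc lamc lamc_mul (vertex_eq L k hL hsum) d)
    ⟨(some ⟨i0, ⟨0, by omega⟩⟩, none), hadj⟩ hg0
  obtain ⟨t, ht, hb⟩ := exists_block_of_chain _ k hk _ hch.1 hch.2
  exact ⟨t, ht, by omega, hb⟩

omit [Fintype ι] in
lemma flower_noLeaves (hne : Nonempty ι) (hL : ∀ i, 3 ≤ L i) : NoLeaves (flower L) := by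
  have aux : ∀ (v a b : FV L), (flower L).Adj v a → (flower L).Adj v b → a ≠ b →
      ((flower L).neighborSet v).ncard ≠ 1 := by
    intro v a b ha hb hab h
    rw [Set.ncard_eq_one] at h
    obtain ⟨c, hc⟩ := h
    have h1 : a ∈ (flower L).neighborSet v := ha
    have h2 : b ∈ (flower L).neighborSet v := hb
    rw [hc, Set.mem_singleton_iff] at h1 h2
    exact hab (h1.trans h2.symm)
  intro v
  rcases v with _ | ⟨i, j⟩
  · obtain ⟨i0⟩ := hne
    have hLi := hL i0
    refine aux none (some ⟨i0, ⟨0, by omega⟩⟩) (some ⟨i0, ⟨L i0 - 2, by omega⟩⟩) (Or.inl rfl)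
      (Or.inr ?_) ?_
    · show L i0 - 2 + 2 = L i0
      omega
    · intro h
      have h1 := Option.some.inj h
      have h2 := (Sigma.mk.inj_iff.mp h1).2
      have h3 := Fin.mk.inj_iff.mp (eq_of_heq h2)
      omega
  · have hLi := hL i
    have hj := j.2
    by_cases h0 : (j : ℕ) = 0
    · refine aux _ none (some ⟨i, ⟨1, by omega⟩⟩) (Or.inl h0) ⟨rfl, Or.inl ?_⟩ (by simp)
      show (j : ℕ) + 1 = 1
      omega
    · by_cases h1 : (j : ℕ) + 2 = L i
      · refine aux _ none (some ⟨i, ⟨(j : ℕ) - 1, by omega⟩⟩) (Or.inr h1) ⟨rfl, Or.inr ?_⟩ (by simp)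
        show (j : ℕ) - 1 + 1 = j
        omega
      · refine aux _ (some ⟨i, ⟨(j : ℕ) + 1, by omega⟩⟩) (some ⟨i, ⟨(j : ℕ) - 1, by omega⟩⟩)
          ⟨rfl, Or.inl rfl⟩ ⟨rfl, Or.inr ?_⟩ ?_
        · show (j : ℕ) - 1 + 1 = j
          omega
        · intro h
          have h1 := Option.some.inj h
          have h2 := (Sigma.mk.inj_iff.mp h1).2
          have h3 := Fin.mk.inj_iff.mp (eq_of_heq h2)
          omega

end flowerchain

/-! ### Transport to `Fin n` -/

section transport

variable {V : Type*} {n : ℕ} (G : SimpleGraph V) (φ : V ↪ Fin n)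

/-- darts of `G` and of its image under an injection -/
noncomputable def dartEquiv : G.Dart ≃ (G.map φ).Dart :=
  Equiv.ofBijective (fun d => ⟨(φ d.fst, φ d.snd), (SimpleGraph.map_adj_apply).mpr d.adj⟩) (by
    constructor
    · intro d e h
      have h1 := congrArg (fun x : (G.map φ).Dart => x.toProd.1) h
      have h2 := congrArg (fun x : (G.map φ).Dart => x.toProd.2) h
      ext
      · exact φ.injective h1
      · exact φ.injective h2
    · rintro ⟨⟨a, b⟩, hab⟩
      obtain ⟨u, v, huv, rfl, rfl⟩ := (SimpleGraph.map_adj _ _ _ _).mp hab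
      exact ⟨⟨(u, v), huv⟩, rfl⟩)

lemma nb_dartEquiv (d e : G.Dart) :
    nbMatrix (G.map φ) (dartEquiv G φ d) (dartEquiv G φ e) = nbMatrix G d e := by
  unfold nbMatrix
  have h1 : ((dartEquiv G φ d).snd = (dartEquiv G φ e).fst ∧
      (dartEquiv G φ d).fst ≠ (dartEquiv G φ e).snd) ↔ (d.snd = e.fst ∧ d.fst ≠ e.snd) := by
    show (φ d.snd = φ e.fst ∧ φ d.fst ≠ φ e.snd) ↔ _
    rw [φ.injective.eq_iff, φ.injective.ne_iff]
  by_cases hc : d.snd = e.fst ∧ d.fst ≠ e.snd
  · rw [if_pos hc, if_pos (h1.mpr hc)]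
  · rw [if_neg hc, if_neg (fun h => hc (h1.mp h))]

lemma exists_adj_map {u v : V} (h : G.Adj u v) : ∃ a b, (G.map φ).Adj a b :=
  ⟨φ u, φ v, (SimpleGraph.map_adj_apply).mpr h⟩

lemma block_reindex {D D' : Type*} [Fintype D] [DecidableEq D] [Fintype D'] [DecidableEq D']
    (e : D ≃ D') (M : Matrix D D ℂ) (M' : Matrix D' D' ℂ) (h : ∀ a b, M' (e a) (e b) = M a b)
    (μ : ℂ) (s : ℕ) (hb : IsJordanBlockSize M μ s) : IsJordanBlockSize M' μ s := by
  have hM : M' = Matrix.reindexAlgEquiv ℂ ℂ e M := by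
    ext a b
    have := h (e.symm a) (e.symm b)
    rw [Equiv.apply_symm_apply, Equiv.apply_symm_apply] at this
    rw [this]
    rfl
  have hs : M' - Matrix.scalar D' μ = Matrix.reindexAlgEquiv ℂ ℂ e (M - Matrix.scalar D μ) := by
    rw [map_sub, ← hM]
    congr 1
    have h1 : Matrix.scalar D μ = algebraMap ℂ (Matrix D D ℂ) μ := rfl
    have h2 : Matrix.scalar D' μ = algebraMap ℂ (Matrix D' D' ℂ) μ := rfl
    rw [h1, h2, AlgEquiv.commutes]
  have hr : ∀ j, ((M' - Matrix.scalar D' μ) ^ j).rank = ((M - Matrix.scalar D μ) ^ j).rank := by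
    intro j
    rw [hs, ← map_pow]
    exact Matrix.rank_reindex _ _ _
  refine ⟨hb.1, ?_⟩
  rw [hr, hr, hr]
  exact hb.2

lemma block_inst {D : Type*} (i1 i2 : Fintype D) (j1 j2 : DecidableEq D) (M : Matrix D D ℂ)
    (μ : ℂ) (s : ℕ) (h : @IsJordanBlockSize D i1 j1 M μ s) : @IsJordanBlockSize D i2 j2 M μ s := by
  have h1 : i1 = i2 := Subsingleton.elim _ _
  have h2 : j1 = j2 := Subsingleton.elim _ _
  subst h1
  subst h2
  exact h

lemma noLeaves_map (h : NoLeaves G) : NoLeaves (G.map φ) := by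
  intro w
  by_cases hw : ∃ v, φ v = w
  · obtain ⟨v, rfl⟩ := hw
    have h1 : (G.map φ).neighborSet (φ v) = φ '' (G.neighborSet v) := by
      ext x
      constructor
      · intro hx
        obtain ⟨a, b, hab, ha, rfl⟩ := (SimpleGraph.map_adj _ _ _ _).mp hx
        have := φ.injective ha
        subst this
        exact ⟨b, hab, rfl⟩
      · rintro ⟨b, hb, rfl⟩
        exact (SimpleGraph.map_adj_apply).mpr hb
    rw [h1, Set.ncard_image_of_injective _ φ.injective]
    exact h v
  · have h1 : (G.map φ).neighborSet w = ∅ := by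
      ext x
      simp only [Set.mem_empty_iff_false, iff_false]
      intro hx
      obtain ⟨a, b, _, ha, _⟩ := (SimpleGraph.map_adj _ _ _ _).mp hx
      exact hw ⟨a, ha⟩
    rw [h1]
    simp

end transport

lemma blockSizes_bddAbove (n : ℕ) : BddAbove (blockSizes n) := by
  classical
  refine ⟨n * n, ?_⟩
  rintro s ⟨G, _, _, μ, hs⟩
  have h1 := blockSize_le _ _ _ hs
  have h2 : Fintype.card G.Dart ≤ Fintype.card (Fin n × Fin n) :=
    Fintype.card_le_of_injective (fun d : G.Dart => d.toProd) (fun a b h => SimpleGraph.Dart.ext _ _ h)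
  rw [Fintype.card_prod, Fintype.card_fin] at h2
  exact le_trans h1 h2

/-- `f n → ∞`: the sizes of Jordan blocks of nonbacktracking matrices of graphs without leaves
are not bounded, and in fact the maximum over `n`-vertex graphs tends to infinity with `n`. -/
theorem result : Filter.Tendsto f Filter.atTop Filter.atTop := by
  classical
  rw [Filter.tendsto_atTop_atTop]
  intro C
  obtain ⟨Ls, hL3, hdvd⟩ := exists_lengths (C + 1) 3 (by omega)
  -- the petals
  set L : Fin Ls.length → ℕ := fun i => Ls.get i with hLdef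
  have hL : ∀ i, 3 ≤ L i := fun i => hL3 _ (List.get_mem _ _)
  have hsum : PowerSeries.X ^ (C + 1) ∣ (∑ i, yc (L i)) - 1 := by
    have h1 : (Ls.map y).sum = ∑ i : Fin Ls.length, y (L i) := by
      rw [← List.sum_ofFn]
      congr 1
      rw [hLdef]
      apply List.ext_get
      · simp
      · intro m h1 h2
        simp
    rw [h1] at hdvd
    obtain ⟨r, hr⟩ := hdvd
    refine ⟨PowerSeries.map (algebraMap ℚ ℂ) r, ?_⟩
    have h2 := congrArg (PowerSeries.map (algebraMap ℚ ℂ)) hr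
    rw [map_sub, map_sum, map_one, map_mul, map_pow, PowerSeries.map_X] at h2
    exact h2
  obtain ⟨hne, t, ht, hblock⟩ := flower_block L (C + 1) (by omega) hL hsum
  refine ⟨Fintype.card (FV L), ?_⟩
  intro n hn
  have hcard : Fintype.card (FV L) ≤ Fintype.card (Fin n) := by rw [Fintype.card_fin]; exact hn
  obtain ⟨φ⟩ := Function.Embedding.nonempty_of_card_le hcard
  have hmem : t ∈ blockSizes n := by
    refine ⟨(flower L).map φ, noLeaves_map _ φ (flower_noLeaves L hne hL), ?_, -3, ?_⟩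
    · obtain ⟨i0⟩ := hne
      have hLi := hL i0
      have hadj : (flower L).Adj (some ⟨i0, ⟨0, by omega⟩⟩) none := Or.inl rfl
      exact exists_adj_map (flower L) φ hadj
    · have hfin := block_reindex (dartEquiv (flower L) φ) (nbMatrix (flower L))
        (nbMatrix ((flower L).map φ)) (nb_dartEquiv (flower L) φ) (-3) t hblock
      exact block_inst _ _ _ _ _ _ _ hfin
  have := le_csSup (blockSizes_bddAbove n) hmem
  unfold f
  omega

end Pool.Agent.Results.MP_b5bb8b_co.Unbounded
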